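import Pool.Agent.V5helper91.IHO.Defs
import Pool.Agent.N397.HO.Fam
import Pool.Agent.W850.Ord.LowDens

/-!
# From the definitions to the ones of the library
-/

set_option autoImplicit false
set_option linter.all false

namespace Pool.Agent.V5helper91.IHO

open NumberField IsDedekindDomain Polynomial Filter Topology
open Pool.Agent.W401.Cheb

section

variable {K : Type} [Field K] [NumberField K] {ℓ : ℕ} [Fact ℓ.Prime]

noncomputable def Mot.lib (A : Mot K ℓ) : Pool.Agent.W528.Ord.MotSystem K ℓ where
  E := A.E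
  conj := A.conj
  w := A.w
  n := A.n
  h := A.h
  P := A.P
  ρ := A.ρ

theorem Mot.IsMotive.lib {A : Mot K ℓ} {χ : GK K →* (PadicAlgCl ℓ)ˣ} {S : Finset ℕ}
    (h : A.IsMotive χ S) : A.lib.IsMotive χ S where
  isConj := h.isConj
  isHodge := h.isHodge
  isUnram := h.isUnram
  isMonic := h.isMonic
  isWeil := h.isWeil
  isMazur := h.isMazur
  isCont := h.isCont
  isCompat := h.isCompat
  nonScalar := h.nonScalar
  connected := fun F U γ hU hF g => by
    have e : ∀ g : GK K, Pool.Agent.W528.Ord.coords A.ρ χ g = coords A.ρ χ g := by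
      intro g
      funext x
      rcases x with x | x <;> rfl
    have h1 := h.connected F U γ hU (fun u hu => by
      have := hF u hu
      rw [← e]
      exact this) g
    have e2 := e g
    rw [← e2] at h1
    exact h1

theorem Mot.adm_lib {A : Mot K ℓ} {γ : GK K} : A.lib.Admissible γ ↔ A.Admissible γ := Iff.rfl

variable {ι : Type}

theorem tensRoots_lib (A : ι → Mot K ℓ) (v : HeightOneSpectrum (𝓞 K)) (w : List (Piece A)) :
    Pool.Agent.R915.Ord.tensRoots (fun i => (A i).lib) v w = tensRoots A v w := by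
  induction w with
  | nil => rfl
  | cons x w ih =>
    change (((A x.1).poly v x.2).roots ×ˢ
        Pool.Agent.R915.Ord.tensRoots (fun i => (A i).lib) v w).map (fun y => y.1 * y.2) =
      (((A x.1).poly v x.2).roots ×ˢ tensRoots A v w).map (fun y => y.1 * y.2)
    rw [ih]

theorem tensSlopes_lib (A : ι → Mot K ℓ) (w : List (Piece A)) :
    Pool.Agent.R915.Ord.tensSlopes (fun i => (A i).lib) w = tensSlopes A w := by
  induction w with
  | nil => rfl
  | cons x w ih =>
    change (((A x.1).h x.2 : Multiset ℕ) ×ˢ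
        Pool.Agent.R915.Ord.tensSlopes (fun i => (A i).lib) w).map (fun y => y.1 + y.2) =
      (((A x.1).h x.2 : Multiset ℕ) ×ˢ tensSlopes A w).map (fun y => y.1 + y.2)
    rw [ih]

lemma comap_self (v : HeightOneSpectrum (𝓞 K)) :
    v.asIdeal.comap (@algebraMap (𝓞 K) (𝓞 K) _ _ (inst_ringOfIntegersAlgebra K K)) = v.asIdeal := by
  ext x
  rw [Ideal.mem_comap]
  have : (@algebraMap (𝓞 K) (𝓞 K) _ _ (inst_ringOfIntegersAlgebra K K)) x = x := by
    apply RingOfIntegers.ext
    rfl
  rw [this]

theorem IsSummand.lib {A : ι → Mot K ℓ} {S : Finset ℕ} {F : HeightOneSpectrum (𝓞 K) → ℤ[X]}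
    {H : Multiset ℕ} (h : IsSummand A S F H) :
    Pool.Agent.R915.Ord.IsSummand (K₀ := K) (fun i => (A i).lib) S F H := by
  obtain ⟨j, W, F', H', h1, h2⟩ := h
  refine ⟨j, W, F', H', ?_, fun v₀ v hv hd => ?_⟩
  · rw [h1]
    congr 1
    apply List.map_congr_left
    intro w _
    exact (tensSlopes_lib A w).symm
  · have e : v = v₀ := by
      apply HeightOneSpectrum.ext
      rw [← hv]
      exact (comap_self v).symm
    subst e
    obtain ⟨h3, h4⟩ := h2 v hd
    refine ⟨?_, h4⟩
    refine Eq.trans h3 ?_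
    congr 1
    apply List.map_congr_left
    intro w _
    exact (tensRoots_lib A v w).symm

end

section HK

noncomputable def HCoh.lib {K : Type} [Field K] {d : ℕ} {c : ℚ} (X : HCoh K d c) :
    Pool.Agent.N184.HK.Cohomology K d c where
  H := X.H
  q := X.q
  symm := X.symm
  nondeg := X.nondeg
  dim3 := X.dim3
  ρ := X.ρ
  ρ_two := X.ρ_two
  bracket := X.bracket
  index := X.index

noncomputable def HCoh.Auto.lib {K : Type} [Field K] {d : ℕ} {c : ℚ} {X : HCoh K d c} (F : X.Auto) :
    X.lib.Auto where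
  φ := F.φ
  μ := F.μ
  μ_ne := F.μ_ne
  similar := F.similar
  equi := F.equi

variable {d : ℕ} {c : ℚ} {b : ℕ → ℕ} {hs : ∀ i, Fin (b i) → ℚ}

noncomputable def HodgeData.lib (B : HodgeData d c b hs) : Pool.Agent.N184.HK.HodgeData d c b hs where
  X := B.X.lib
  mono := B.mono
  J := B.J
  skew := B.skew
  hodge := B.hodge

noncomputable def GoodPlace.lib (v : GoodPlace d c b hs) : Pool.Agent.N184.HK.GoodPlace d c b hs where
  C := v.C
  D := v.D.lib
  F := v.F.lib
  N := v.N
  val := v.val
  norm := v.norm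
  ns := v.ns
  mono := v.mono
  slopes := v.slopes
  above := v.above
  ends := v.ends

/-- If `H²` is ordinary then all cohomology groups are ordinary. -/
theorem ordinary_all (B : HodgeData d c b hs) (v : GoodPlace d c b hs) (h2 : 2 ≤ d)
    (h : v.ns 2 = hs 2) {i : ℕ} (hi : i ≤ d) : v.ns i = hs i :=
  Pool.Agent.N184.HK.ordinary_all B.lib v.lib h2 h hi

end HK

section prop

variable {F : Type} [Field F] [NumberField F] (T : Toolkit F)

theorem ratio_lib {K : Type} [Field K] [NumberField K] (P : HeightOneSpectrum (𝓞 K) → Prop) :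
    lowerDensity P = Pool.Agent.W528.Ord.lowerDensity P := rfl

theorem above_lib {n h : Multiset ℚ} : Above n h ↔ Pool.Agent.N397.HO.Above n h := Iff.rfl

variable {K : Type} [Field K] [NumberField K] {ℓ : ℕ} [Fact ℓ.Prime] {ι : Type} [Fintype ι]
  (A : ι → Mot K ℓ)

theorem proportion_lib :
    ((perm A '' {γ | ∀ i, (A i).Admissible γ}).ncard : ℝ) / ((Set.range (perm A)).ncard : ℝ) =
      Pool.Agent.W528.Ord.MotSystem.admProportion (fun i => (A i).lib) := by
  classical
  set U := Pool.Agent.W528.Ord.MotSystem.fixU (fun i => (A i).lib) with hU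
  have hperm : ∀ a b : GK K, perm A a = perm A b ↔ a⁻¹ * b ∈ U := by
    intro a b
    constructor
    · intro h i σ
      have h1 := congrFun h ⟨i, σ⟩
      have h2 : mv a σ = mv b σ := by
        unfold perm at h1
        exact eq_of_heq (Sigma.mk.inj h1).2
      change Pool.Agent.W528.Ord.MultSystem.mv (a⁻¹ * b) σ = σ
      rw [Pool.Agent.W528.Ord.MultSystem.mv_mul]
      have h4 : Pool.Agent.W528.Ord.MultSystem.mv b σ = Pool.Agent.W528.Ord.MultSystem.mv a σ := h2.symm
      rw [h4, ← Pool.Agent.W528.Ord.MultSystem.mv_mul, inv_mul_cancel,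
        Pool.Agent.W528.Ord.MultSystem.mv_one]
    · intro h
      funext x
      obtain ⟨i, σ⟩ := x
      have h1 : Pool.Agent.W528.Ord.MultSystem.mv (a⁻¹ * b) σ = σ := h i σ
      unfold perm
      have h2 : mv a σ = mv b σ := by
        have h3 : Pool.Agent.W528.Ord.MultSystem.mv a (Pool.Agent.W528.Ord.MultSystem.mv (a⁻¹ * b) σ) =
            Pool.Agent.W528.Ord.MultSystem.mv a σ := by rw [h1]
        rw [← Pool.Agent.W528.Ord.MultSystem.mv_mul, mul_inv_cancel_left] at h3
        exact h3.symm
      rw [h2]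
  let j : GK K ⧸ U → (Piece A → Piece A) := Quotient.lift (perm A) (by
    intro a b hab
    exact (hperm a b).2 (QuotientGroup.leftRel_apply.1 hab))
  have hj : Function.Injective j := by
    intro x y
    induction x using Quotient.inductionOn with
    | h a =>
    induction y using Quotient.inductionOn with
    | h b =>
    intro h
    exact Quotient.sound (QuotientGroup.leftRel_apply.2 ((hperm a b).1 h))
  have hjm : ∀ a : GK K, j (QuotientGroup.mk a) = perm A a := fun a => rfl
  have e1 : perm A '' {γ | ∀ i, (A i).Admissible γ} =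
      j '' ((QuotientGroup.mk : GK K → GK K ⧸ U) '' {γ | ∀ i, (A i).Admissible γ}) := by
    rw [← Set.image_comp]
    rfl
  have e2 : Set.range (perm A) = j '' Set.univ := by
    rw [Set.image_univ]
    ext f
    constructor
    · rintro ⟨a, rfl⟩
      exact ⟨QuotientGroup.mk a, rfl⟩
    · rintro ⟨x, rfl⟩
      obtain ⟨a, rfl⟩ := QuotientGroup.mk_surjective x
      exact ⟨a, rfl⟩
  rw [e1, e2, Set.ncard_image_of_injective _ hj, Set.ncard_image_of_injective _ hj, Set.ncard_univ]
  rfl

end prop

end Pool.Agent.V5helper91.IHO
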