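import Pool.Agent.W401.Cheb.AbsDefs

/-!
# Intersection cohomology built from hyperkähler varieties and motives with multiplication: definitions
-/

set_option autoImplicit false
set_option linter.all false

namespace Pool.Agent.V5helper91.IHO

open NumberField IsDedekindDomain Polynomial Filter Topology
open Pool.Agent.W401.Cheb

/-! ## Motives with multiplication -/

section

variable {B : Type} [CommRing B]

/-- `p ^ m` divides `x` in the local ring of the prime ideal `Q` -/
def LocDvd (Q : Ideal B) (p m : ℕ) (x : B) : Prop := ∃ s : B, s ∉ Q ∧ (p : B) ^ m ∣ s * x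

/-- `x` is `p ^ m` times a unit of the local ring of the prime ideal `Q` -/
def LocEq (Q : Ideal B) (p m : ℕ) (x : B) : Prop :=
  ∃ s t : B, s ∉ Q ∧ t ∉ Q ∧ s * x = t * (p : B) ^ m

end

section

variable {K E Ω : Type} [Field K] [Field E] [Field Ω] {n : ℕ}

/-- the Galois group acts on embeddings by composition -/
noncomputable def mv (γ : GK K) (σ : E →+* AlgebraicClosure K) :
    E →+* AlgebraicClosure K := (γ.toAlgHom.toRingHom).comp σ

/-- the matrix entries of the representations `ρ τ` and the value of the character `χ` -/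
noncomputable def coords (ρ : (E →+* Ω) → GK K →* Matrix.GeneralLinearGroup (Fin n) Ω) (χ : GK K →* Ωˣ)
    (g : GK K) : ((E →+* Ω) × Fin n × Fin n) ⊕ Unit → Ω
  | Sum.inl x => (ρ x.1 g : Matrix (Fin n) (Fin n) Ω) x.2.1 x.2.2
  | Sum.inr _ => (χ g : Ω)

/-- the Zariski closure of the image of `(ρ, χ)` is connected: a polynomial relation which holds on a
coset of an open subgroup holds everywhere -/
def ConnectedMonodromy (ρ : (E →+* Ω) → GK K →* Matrix.GeneralLinearGroup (Fin n) Ω)
    (χ : GK K →* Ωˣ) : Prop :=
  ∀ (F : MvPolynomial (((E →+* Ω) × Fin n × Fin n) ⊕ Unit) Ω) (U : Subgroup (GK K)) (γ : GK K),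
    IsOpen (U : Set (GK K)) → (∀ u ∈ U, MvPolynomial.eval (coords ρ χ (γ * u)) F = 0) →
    ∀ g : GK K, MvPolynomial.eval (coords ρ χ g) F = 0

end

/-- the prime numbers outside `S` are unramified in the number field `E` -/
def Unram (E : Type) [Field E] [NumberField E] (S : Finset ℕ) : Prop :=
  ∀ p : ℕ, p.Prime → p ∉ S → ∀ 𝔭 : Ideal (𝓞 E), 𝔭.IsPrime → (p : 𝓞 E) ∈ 𝔭 →
    (p : 𝓞 E) ∉ 𝔭 ^ 2

/-- `c` is complex conjugation: `E` is totally real or a CM field -/
def IsConj (E : Type) [Field E] (c : E ≃+* E) : Prop :=
  ∀ (τ : E →+* ℂ) (x : E), τ (c x) = starRingEnd ℂ (τ x)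

/-- Data attached to a pure motive over the number field `K` with multiplication by the totally real
field or CM field `E`. -/
structure Mot (K : Type) [Field K] [NumberField K] (ℓ : ℕ) [Fact ℓ.Prime] where
  /-- the field of multiplications -/
  E : Type
  [fieldE : Field E]
  [numberFieldE : NumberField E]
  /-- complex conjugation of `E` (the identity if `E` is totally real) -/
  conj : E ≃+* E
  /-- the weight -/
  w : ℕ
  /-- the rank over `E` -/
  n : ℕ
  /-- the Hodge slopes of the `σ`-part: the list, in increasing order, of the `p` with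
  multiplicity `h^{p, w - p}` -/
  h : (E →+* AlgebraicClosure K) → List ℕ
  /-- the characteristic polynomials of the geometric Frobenius elements, over the integers of `E` -/
  P : HeightOneSpectrum (𝓞 K) → Polynomial (𝓞 E)
  /-- the `τ`-parts of the dual of the `ℓ`-adic realisation -/
  ρ : (E →+* PadicAlgCl ℓ) → GK K →* Matrix.GeneralLinearGroup (Fin n) (PadicAlgCl ℓ)

attribute [instance] Mot.fieldE Mot.numberFieldE

section

variable {K : Type} [Field K] [NumberField K] {ℓ : ℕ} [Fact ℓ.Prime]

/-- The place `v` has degree one, and its residue characteristic is not in `Y`. -/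
def Deg1 (Y : Finset ℕ) (v : HeightOneSpectrum (𝓞 K)) : Prop :=
  (Ideal.absNorm v.asIdeal).Prime ∧ Ideal.absNorm v.asIdeal ∉ Y

/-- `Q` is a maximal ideal above `v` of the ring of all algebraic integers -/
def IsOver (Q : Ideal (𝓞 (AlgebraicClosure K))) (v : HeightOneSpectrum (𝓞 K)) : Prop :=
  Q.IsMaximal ∧ Q.comap (algebraMap (𝓞 K) (𝓞 (AlgebraicClosure K))) = v.asIdeal

namespace Mot

/-- the `k`-th coefficient of the Frobenius polynomial of `v` under the embedding `σ`, an algebraic
integer -/
noncomputable def cof (A : Mot K ℓ) (v : HeightOneSpectrum (𝓞 K)) (k : ℕ)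
    (σ : A.E →+* AlgebraicClosure K) : 𝓞 (AlgebraicClosure K) :=
  RingOfIntegers.mapRingHom σ ((A.P v).coeff k)

/-- the Hodge polygon of the `σ`-part at `k`: the sum of the `k` smallest slopes -/
def hp (A : Mot K ℓ) (σ : A.E →+* AlgebraicClosure K) (k : ℕ) : ℕ := ((A.h σ).take k).sum

/-- `k` is a vertex of the Hodge polygon of the `σ`-part, different from the end points -/
def Vertex (A : Mot K ℓ) (σ : A.E →+* AlgebraicClosure K) (k : ℕ) : Prop :=
  0 < k ∧ k < A.n ∧ (A.h σ).getD (k - 1) 0 < (A.h σ).getD k 0

/-- the orbit of `σ₀` under the powers of `γ`; if `2 k = n` the orbit of the complex conjugate of `σ₀`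
is added -/
def orb (A : Mot K ℓ) (γ : GK K) (σ₀ : A.E →+* AlgebraicClosure K) (k : ℕ) :
    Set (A.E →+* AlgebraicClosure K) :=
  {σ | ∃ j : ℕ, σ = mv (γ ^ j) σ₀ ∨
    (2 * k = A.n ∧ σ = mv (γ ^ j) (σ₀.comp (A.conj : A.E →+* A.E)))}

/-- twice the total defect at `k`: the sum over all embeddings `σ` of `w k - 2 (hp σ k)` -/
noncomputable def defect (A : Mot K ℓ) (k : ℕ) : ℤ :=
  ∑ σ : A.E →+* AlgebraicClosure K, ((A.w * k : ℕ) - 2 * (A.hp σ k : ℤ))

/-- the orbit condition: for every vertex `k` of the Hodge polygon of the `σ₀`-part, twice the total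
defect at `k` is at most twice the number of elements of the orbit -/
def Admissible (A : Mot K ℓ) (γ : GK K) : Prop :=
  ∀ (σ₀ : A.E →+* AlgebraicClosure K) (k : ℕ), A.Vertex σ₀ k →
    A.defect k ≤ 2 * ((A.orb γ σ₀ k).ncard : ℤ)

/-- the Frobenius polynomial of `v` under the embedding `τ` of `E` into a field `L` -/
noncomputable def poly (A : Mot K ℓ) {L : Type} [Field L] (v : HeightOneSpectrum (𝓞 K))
    (τ : A.E →+* L) : Polynomial L :=
  (A.P v).map (τ.comp (algebraMap (𝓞 A.E) A.E))

/-- the Hodge slopes: there are `n` of them, between `0` and `w`, in increasing order, Hodge symmetry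
holds, and they depend only on the embedding up to the action of the Galois group of `K` -/
def IsHodge (A : Mot K ℓ) : Prop :=
  ∀ σ : A.E →+* AlgebraicClosure K, (A.h σ).length = A.n ∧ (A.h σ).Pairwise (· ≤ ·) ∧
    (∀ a ∈ A.h σ, a ≤ A.w) ∧
    A.h (σ.comp (A.conj : A.E →+* A.E)) = ((A.h σ).map fun a => A.w - a).reverse ∧
    ∀ γ : GK K, A.h (mv γ σ) = A.h σ

/-- the Frobenius polynomials are monic of degree `n` -/
def IsMonic (A : Mot K ℓ) (S : Finset ℕ) : Prop :=
  ∀ v : HeightOneSpectrum (𝓞 K), Deg1 S v → (A.P v).Monic ∧ (A.P v).natDegree = A.n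

/-- Deligne: the complex absolute values of the Frobenius eigenvalues are `(N v) ^ (w / 2)` -/
def Weil (A : Mot K ℓ) (S : Finset ℕ) : Prop :=
  ∀ v : HeightOneSpectrum (𝓞 K), Deg1 S v → ∀ (τ : A.E →+* ℂ) (α : ℂ),
    (A.poly v τ).IsRoot α → ‖α‖ ^ 2 = (Ideal.absNorm v.asIdeal : ℝ) ^ A.w

/-- Mazur: the Newton polygon of the `σ`-part lies above its Hodge polygon and has the same end point -/
def Mazur (A : Mot K ℓ) (S : Finset ℕ) : Prop :=
  ∀ v : HeightOneSpectrum (𝓞 K), Deg1 S v → ∀ Q : Ideal (𝓞 (AlgebraicClosure K)), IsOver Q v →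
    ∀ σ : A.E →+* AlgebraicClosure K,
      (∀ k ≤ A.n, LocDvd Q (Ideal.absNorm v.asIdeal) (A.hp σ k) (A.cof v (A.n - k) σ)) ∧
      LocEq Q (Ideal.absNorm v.asIdeal) (A.hp σ A.n) (A.cof v 0 σ)

/-- the representations `ρ τ` and the character `χ` are continuous -/
def IsCont (A : Mot K ℓ) (χ : GK K →* (PadicAlgCl ℓ)ˣ) : Prop :=
  (∀ (τ : A.E →+* PadicAlgCl ℓ) (i j : Fin A.n),
    Continuous fun g : GK K => (A.ρ τ g : Matrix (Fin A.n) (Fin A.n) (PadicAlgCl ℓ)) i j) ∧
  Continuous fun g : GK K => (χ g : PadicAlgCl ℓ)

/-- the Frobenius elements at `v` have characteristic polynomials `P v` and `χ = N v` -/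
def Compat (A : Mot K ℓ) (χ : GK K →* (PadicAlgCl ℓ)ˣ) (S : Finset ℕ) : Prop :=
  ∀ v : HeightOneSpectrum (𝓞 K), Deg1 S v → ∀ γ : GK K, IsFrob v γ →
    (χ γ : PadicAlgCl ℓ) = (Ideal.absNorm v.asIdeal : PadicAlgCl ℓ) ∧
    ∀ τ : A.E →+* PadicAlgCl ℓ,
      (A.ρ τ γ : Matrix (Fin A.n) (Fin A.n) (PadicAlgCl ℓ)).charpoly = A.poly v τ

/-- If the Hodge polygon of some `σ`-part has a vertex, the Frobenius polynomials are not all powers of
linear polynomials (a representation with scalar Frobenius elements has a single Hodge-Tate weight). -/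
def NonScalar (A : Mot K ℓ) (S : Finset ℕ) : Prop :=
  (∃ (σ : A.E →+* AlgebraicClosure K) (k : ℕ), A.Vertex σ k) →
    ∃ v : HeightOneSpectrum (𝓞 K), Deg1 S v ∧ ∃ τ : A.E →+* ℂ, ∀ α : ℂ, A.poly v τ ≠ (X - C α) ^ A.n

/-- The properties of the compatible system of Galois representations of a pure motive with
multiplication by `E` over `K`, at the places of degree one outside a finite set of residue
characteristics `S`; `χ` is the cyclotomic character. -/
structure IsMotive (A : Mot K ℓ) (χ : GK K →* (PadicAlgCl ℓ)ˣ) (S : Finset ℕ) : Prop where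
  isConj : IsConj A.E A.conj
  isHodge : A.IsHodge
  isUnram : Unram A.E S
  isMonic : A.IsMonic S
  isWeil : A.Weil S
  isMazur : A.Mazur S
  isCont : A.IsCont χ
  isCompat : A.Compat χ S
  nonScalar : A.NonScalar S
  /-- the Zariski closure of the image of the Galois group is connected -/
  connected : ConnectedMonodromy A.ρ χ

end Mot

end

/-! ## Direct summands of sums of tensor products of pieces -/

section

variable {K : Type} [Field K] [NumberField K] {ℓ : ℕ} [Fact ℓ.Prime] {ι : Type}

/-- A piece: the `σ`-part of the motive `A i`, for an embedding `σ` of the field of multiplications. -/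
abbrev Piece (A : ι → Mot K ℓ) : Type := Σ i, ((A i).E →+* AlgebraicClosure K)

/-- The Frobenius eigenvalues at `v` on the tensor product of the pieces in the list `w`. -/
noncomputable def tensRoots (A : ι → Mot K ℓ) (v : HeightOneSpectrum (𝓞 K)) :
    List (Piece A) → Multiset (AlgebraicClosure K)
  | [] => {1}
  | x :: w => (((A x.1).poly v x.2).roots ×ˢ tensRoots A v w).map fun y => y.1 * y.2

/-- The Hodge slopes of the tensor product of the pieces in the list `w`. -/
noncomputable def tensSlopes (A : ι → Mot K ℓ) : List (Piece A) → Multiset ℕ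
  | [] => {0}
  | x :: w => (((A x.1).h x.2 : Multiset ℕ) ×ˢ tensSlopes A w).map fun y => y.1 + y.2

/-- The sum of the `k` smallest elements of the multiset `H`: the polygon with slopes `H` at `k`. -/
def polygon (H : Multiset ℕ) (k : ℕ) : ℕ := ((H.sort (· ≤ ·)).take k).sum

/-- `P` is monic and its Newton polygon at `Q` lies above the polygon with slopes `H`
(Mazur's inequality). -/
def LiesAbove (Q : Ideal (𝓞 (AlgebraicClosure K))) (p : ℕ) (P : Polynomial (𝓞 (AlgebraicClosure K)))
    (H : Multiset ℕ) : Prop :=
  P.Monic ∧ P.natDegree = Multiset.card H ∧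
    ∀ k ≤ Multiset.card H, LocDvd Q p (polygon H k) (P.coeff (Multiset.card H - k))

/-- the eigenvalues in `K̄` -/
noncomputable def rts (P : Polynomial (𝓞 (AlgebraicClosure K))) : Multiset (AlgebraicClosure K) :=
  (P.map (algebraMap (𝓞 (AlgebraicClosure K)) (AlgebraicClosure K))).roots

/-- The twist by `-j` of the object over `K` with the Frobenius polynomials `F v` and the Hodge slopes
`H` is a direct summand of a direct sum of tensor products of pieces of the `A i` (the lists in `W`);
the complement has the Frobenius polynomials `F'` and the Hodge slopes `H'`, and Mazur's inequality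
holds for the summand and for the complement. -/
def IsSummand (A : ι → Mot K ℓ) (S : Finset ℕ) (F : HeightOneSpectrum (𝓞 K) → ℤ[X])
    (H : Multiset ℕ) : Prop :=
  ∃ (j : ℕ) (W : List (List (Piece A)))
    (F' : HeightOneSpectrum (𝓞 K) → Polynomial (𝓞 (AlgebraicClosure K))) (H' : Multiset ℕ),
    H.map (fun a => j + a) + H' = (W.map (tensSlopes A)).sum ∧
    ∀ v : HeightOneSpectrum (𝓞 K), Deg1 S v →
      ((rts ((F v).map (Int.castRingHom (𝓞 (AlgebraicClosure K))))).map fun x =>
          ((Ideal.absNorm v.asIdeal : ℕ) : AlgebraicClosure K) ^ j * x) + rts (F' v) =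
        (W.map (tensRoots A v)).sum ∧
      ∀ Q : Ideal (𝓞 (AlgebraicClosure K)), IsOver Q v →
        LiesAbove Q (Ideal.absNorm v.asIdeal)
          ((F v).map (Int.castRingHom (𝓞 (AlgebraicClosure K)))) H ∧
        LiesAbove Q (Ideal.absNorm v.asIdeal) (F' v) H'

end

/-! ## Hyperkähler varieties -/

/-- `A` is skew-symmetric for the bilinear form `q`. -/
def Skew {K V : Type} [Field K] [AddCommGroup V] [Module K V] (q : LinearMap.BilinForm K V)
    (A : Module.End K V) : Prop :=
  ∀ x y, q (A x) y + q x (A y) = 0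

section

variable {K : Type} [Field K] {V W : Type} [AddCommGroup V] [Module K V] [AddCommGroup W]
  [Module K W]

/-- Linear maps from the endomorphisms of `V` to the endomorphisms of `W`. -/
abbrev Act (K V W : Type) [Field K] [AddCommGroup V] [Module K V] [AddCommGroup W]
    [Module K W] : Type :=
  Module.End K V →ₗ[K] Module.End K W

/-- `ρ` is a representation of the Lie algebra `so(V, q)`. -/
def Act.IsRep (ρ : Act K V W) (q : LinearMap.BilinForm K V) : Prop :=
  ∀ A B, Skew q A → Skew q B → ρ (A * B - B * A) = ρ A * ρ B - ρ B * ρ A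

/-- `ρ` is the standard representation of `so(V, q)`. -/
def Act.IsStd (ρ : Act K V V) (q : LinearMap.BilinForm K V) : Prop :=
  ∀ A, Skew q A → ρ A = A

/-- The trace form of the representation `ρ`. -/
noncomputable def Act.form (ρ : Act K V W) (A B : Module.End K V) : K :=
  LinearMap.trace K W (ρ A * ρ B)

/-- The trace form of `ρ` is `a` times the trace form of the standard representation. -/
def TraceForm (q : LinearMap.BilinForm K V) (φ : Module.End K V → Module.End K V → K) (a : K) :
    Prop :=
  ∀ A B, Skew q A → Skew q B → φ A B = a * LinearMap.trace K V (A * B)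

/-- `f` multiplies the form `q` by `μ`. -/
def Similar (q : LinearMap.BilinForm K V) (f : V ≃ₗ[K] V) (μ : K) : Prop :=
  ∀ x y, q (f x) (f y) = μ * q x y

/-- The action `ρ` is equivariant: `g (ρ A) g⁻¹ = ρ (f A f⁻¹)`. -/
def Act.Equi (ρ : Act K V W) (f : V ≃ₗ[K] V) (g : W ≃ₗ[K] W) : Prop :=
  ∀ A : Module.End K V, g.toLinearMap ∘ₗ ρ A =
    ρ (f.toLinearMap ∘ₗ A ∘ₗ f.symm.toLinearMap) ∘ₗ g.toLinearMap

end

/-- The cohomology of a hyperkähler variety `X` of (real) dimension `d = 2 dim X` for a Weil
cohomology with coefficients `K` (Betti, `ℓ`-adic, crystalline, after extension of scalars):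
`H i = H^i(X)` for `i ≤ d`, the Beauville-Bogomolov-Fujiki form `q` on `H²`, and the action `ρ i` on
`H^i` of the Lie algebra `so(H², q)` (Verbitsky, Looijenga-Lunts). The trace form of the representation
of `so(H²)` on the sum of the `H^i` is `c` times the trace form of `H²`. -/
structure HCoh (K : Type) [Field K] (d : ℕ) (c : ℚ) where
  H : ℕ → Type
  [grp : ∀ i, AddCommGroup (H i)]
  [mod : ∀ i, Module K (H i)]
  [fin : ∀ i, FiniteDimensional K (H i)]
  q : LinearMap.BilinForm K (H 2)
  symm : q.IsSymm
  nondeg : q.Nondegenerate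
  dim3 : 3 ≤ Module.finrank K (H 2)
  ρ : ∀ i, Act K (H 2) (H i)
  ρ_two : (ρ 2).IsStd q
  bracket : ∀ i, (ρ i).IsRep q
  index : TraceForm q (fun A B => ∑ i ∈ Finset.range (d + 1), (ρ i).form A B) c

attribute [instance] HCoh.grp HCoh.mod HCoh.fin

/-- A graded automorphism of the cohomology (up to Tate twists: a Frobenius): it multiplies `q` by a
scalar and it normalizes the action of `so(H²)`, as this action is canonical. -/
structure HCoh.Auto {K : Type} [Field K] {d : ℕ} {c : ℚ} (X : HCoh K d c) where
  φ : ∀ i, X.H i ≃ₗ[K] X.H i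
  μ : K
  μ_ne : μ ≠ 0
  similar : Similar X.q (φ 2) μ
  equi : ∀ i, (X.ρ i).Equi (φ 2) (φ i)

/-- The Betti cohomology with the Hodge numbers. `hs i` is the increasing list of the numbers `p`,
each with multiplicity `h^{p, i - p}` (the slopes of the Hodge polygon of `H^i`); `b i` is the Betti
number. The Hodge operator, which acts on `H^{p, q}` by `(p - q) / 2`, is given by an element `J` of
`so(H²)` (Verbitsky). -/
structure HodgeData (d : ℕ) (c : ℚ) (b : ℕ → ℕ) (hs : ∀ i, Fin (b i) → ℚ) where
  X : HCoh ℂ d c
  mono : ∀ i, Monotone (hs i)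
  J : Module.End ℂ (X.H 2)
  skew : Skew X.q J
  hodge : ∀ i ≤ d, (X.ρ i J).charpoly.roots =
    Finset.univ.val.map (fun j => ((hs i j - i / 2 : ℚ) : ℂ))

/-- A place of good reduction of the number field, of norm `N`: the cohomology `D` of the reduction
(crystalline, or `ℓ`-adic), over an algebraically closed field `C`, with its (linear) Frobenius `F`, and
the `p`-adic valuation `val`, normalized by `val N = 1`. `ns i` is the increasing list of the slopes of
the Newton polygon of `H^i`: the valuations of the eigenvalues of the Frobenius. The Newton polygon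
lies above the Hodge polygon and has the same end point (Mazur, Ogus). -/
structure GoodPlace (d : ℕ) (c : ℚ) (b : ℕ → ℕ) (hs : ∀ i, Fin (b i) → ℚ) where
  C : Type
  [field : Field C]
  [closed : IsAlgClosed C]
  [char : CharZero C]
  D : HCoh C d c
  F : D.Auto
  N : ℕ
  val : AddValuation C (WithTop ℚ)
  norm : val (N : C) = 1
  ns : ∀ i, Fin (b i) → ℚ
  mono : ∀ i, Monotone (ns i)
  slopes : ∀ i ≤ d, (F.φ i).toLinearMap.charpoly.roots.map (fun e => val e) =
    Finset.univ.val.map (fun j => ((ns i j : ℚ) : WithTop ℚ))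
  above : ∀ i ≤ d, ∀ k : ℕ, ∑ j ∈ Finset.univ.filter (fun j : Fin (b i) => (j : ℕ) < k), hs i j ≤
    ∑ j ∈ Finset.univ.filter (fun j : Fin (b i) => (j : ℕ) < k), ns i j
  ends : ∀ i ≤ d, ∑ j, ns i j = ∑ j, hs i j

attribute [instance] GoodPlace.field GoodPlace.closed GoodPlace.char

/-- The characteristic polynomial of the Frobenius of `H²`. -/
noncomputable def GoodPlace.cp {d : ℕ} {c : ℚ} {b : ℕ → ℕ} {hs : ∀ i, Fin (b i) → ℚ}
    (v : GoodPlace d c b hs) : v.C[X] :=
  (v.F.φ 2).toLinearMap.charpoly

/-- A projective hyperkähler variety `X` of dimension `d / 2` over a number field `K`: Hodge numbers,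
Betti cohomology, and the places of good reduction of degree one (the residue characteristics in the
finite set `bad` are excluded). `poly v` is the characteristic polynomial of the Frobenius of `v` on
`H²`; it has integral coefficients (Katz, Messing). The slopes of `H²` are symmetric (duality), and the
Hodge numbers `h^{0,2}, h^{1,1}, h^{2,0}` are `1, b_2 - 2, 1`. -/
structure HK (K : Type) [Field K] [NumberField K] where
  d : ℕ
  two_le : 2 ≤ d
  c : ℚ
  b : ℕ → ℕ
  hs : ∀ i, Fin (b i) → ℚ
  betti : HodgeData d c b hs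
  hodge : ∀ j : Fin (b 2), hs 2 j =
    if (j : ℕ) = 0 then 0 else if (j : ℕ) + 1 = b 2 then 2 else 1
  bad : Finset ℕ
  place : ∀ v : HeightOneSpectrum (𝓞 K), Deg1 bad v → GoodPlace d c b hs
  norm_eq : ∀ v h, (place v h).N = Ideal.absNorm v.asIdeal
  dual : ∀ v h j, (place v h).ns 2 j + (place v h).ns 2 (Fin.rev j) = 2
  poly : HeightOneSpectrum (𝓞 K) → ℤ[X]
  poly_p : ∀ v h, (place v h).cp = (poly v).map (Int.castRingHom _)

/-! ## Densities, toolkits -/

/-- the proportion of the places `v` with `N v ≤ N` which satisfy `P` -/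
noncomputable def ratio {K : Type} [Field K] [NumberField K] (P : HeightOneSpectrum (𝓞 K) → Prop)
    (N : ℕ) : ℝ :=
  (Nat.card {v : HeightOneSpectrum (𝓞 K) // Ideal.absNorm v.asIdeal ≤ N ∧ P v} : ℝ) /
    (Nat.card {v : HeightOneSpectrum (𝓞 K) // Ideal.absNorm v.asIdeal ≤ N} : ℝ)

/-- lower density of a set of finite places of a number field -/
noncomputable def lowerDensity {K : Type} [Field K] [NumberField K]
    (P : HeightOneSpectrum (𝓞 K) → Prop) : ℝ := liminf (ratio P) atTop

/-- Tools over a number field `F`: a finite extension `K` of `F` and finitely many pure motives `A i`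
over `K` with multiplication by totally real or CM fields, with their finite sets `S i` of bad residue
characteristics (over `K` the `ℓ`-adic monodromy groups are connected, for one prime `ℓ`), such that
some element `γ` of the Galois group of `K` satisfies the orbit condition for all `i`; and a set `Z` of
places of `K` of density zero. -/
structure Toolkit (F : Type) [Field F] [NumberField F] where
  K : Type
  [fieldK : Field K]
  [numK : NumberField K]
  [algK : Algebra F K]
  ℓ : ℕ
  [prime : Fact ℓ.Prime]
  ι : Type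
  [fin : Fintype ι]
  A : ι → Mot K ℓ
  χ : GK K →* (PadicAlgCl ℓ)ˣ
  S : ι → Finset ℕ
  Z : Set (HeightOneSpectrum (𝓞 K))
  motive : ∀ i, (A i).IsMotive χ (S i)
  orbit : ∃ γ : GK K, ∀ i, (A i).Admissible γ
  null : Tendsto (dens fun v : HeightOneSpectrum (𝓞 K) => v ∈ Z) atTop (𝓝 0)

attribute [instance] Toolkit.fieldK Toolkit.numK Toolkit.algK Toolkit.prime Toolkit.fin

/-- The permutation of the pieces which is given by the element `γ` of the Galois group. -/
noncomputable def perm {K : Type} [Field K] [NumberField K] {ℓ : ℕ} [Fact ℓ.Prime] {ι : Type}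
    (A : ι → Mot K ℓ) (γ : GK K) (x : Piece A) : Piece A := ⟨x.1, mv γ x.2⟩

/-- The proportion of the admissible elements in the finite group of permutations of the pieces through
which the Galois group of `K` acts, divided by `[K : F]`. -/
noncomputable def Toolkit.proportion {F : Type} [Field F] [NumberField F] (T : Toolkit F) : ℝ :=
  (((perm T.A '' {γ | ∀ i, (T.A i).Admissible γ}).ncard : ℝ) / ((Set.range (perm T.A)).ncard : ℝ)) /
    (Module.finrank F T.K : ℝ)

/-! ## Cohomology theories and their constructions -/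

/-- The slopes of a Hodge-Tate polygon as rational numbers. -/
def toQ (H : Multiset ℕ) : Multiset ℚ := H.map fun a : ℕ => (a : ℚ)

/-- `p` is a prime number and the Newton polygon at `p` of the integral polynomial `P` has the slopes
`s`: the roots of `P` in an algebraic closure of `ℚ_p` have the absolute values `p ^ (-a)`, `a` in `s`,
with multiplicity. -/
def Slopes (p : ℕ) (P : ℤ[X]) (s : Multiset ℚ) : Prop :=
  ∃ _ : Fact p.Prime, ((P.map (Int.castRingHom (PadicAlgCl p))).roots.map fun y => ‖y‖) =
    s.map fun a : ℚ => (1 / (p : ℝ)) ^ (a : ℝ)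

/-- The Newton polygon with the slopes `n` lies on or above the Hodge polygon with the slopes `h`, and
both have the same end point. -/
def Above (n h : Multiset ℚ) : Prop :=
  n.card = h.card ∧ n.sum = h.sum ∧
    ∀ k : ℕ, ((h.sort (· ≤ ·)).take k).sum ≤ ((n.sort (· ≤ ·)).take k).sum

/-- Künneth formula: the sums of the slopes in complementary degrees. -/
def kun (a b : ℕ → Multiset ℚ) (n : ℕ) : Multiset ℚ :=
  ∑ ij ∈ Finset.HasAntidiagonal.antidiagonal n, (a ij.1 ×ˢ b ij.2).map (fun x => x.1 + x.2)

/-- The numerical data of the cohomology of a variety over the number field `K`: the Hodge slopes in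
degree `n`, and the slopes of the Frobenius at `v` in degree `n`. -/
structure Coh (K : Type) [Field K] [NumberField K] where
  hodge : ℕ → Multiset ℚ
  newton : HeightOneSpectrum (𝓞 K) → ℕ → Multiset ℚ

section

variable {K : Type} [Field K] [NumberField K]

/-- The place `v` is ordinary: the Newton polygon is the Hodge polygon in all degrees. -/
def Coh.Ord (V : Coh K) (v : HeightOneSpectrum (𝓞 K)) : Prop := ∀ n, V.newton v n = V.hodge n

/-- The Newton polygons lie on or above the Hodge polygons, at the places of degree one whose residue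
characteristics are not in `Y`. -/
def Coh.Above (V : Coh K) (Y : Finset ℕ) : Prop :=
  ∀ v, Deg1 Y v → ∀ n, IHO.Above (V.newton v n) (V.hodge n)

/-- The product of two varieties (Künneth). -/
def Coh.prod (V W : Coh K) : Coh K where
  hodge := kun V.hodge W.hodge
  newton v := kun (V.newton v) (W.newton v)

/-- The direct sum of the cohomology of two varieties. -/
def Coh.sum (V W : Coh K) : Coh K where
  hodge n := V.hodge n + W.hodge n
  newton v n := V.newton v n + W.newton v n

/-- The cohomology of `V`, shifted by `2 k` and twisted by `-k`. -/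
def Coh.twist (V : Coh K) (k : ℕ) : Coh K where
  hodge n := if 2 * k ≤ n then (V.hodge (n - 2 * k)).map (fun x => x + k) else 0
  newton v n := if 2 * k ≤ n then (V.newton v (n - 2 * k)).map (fun x => x + k) else 0

open Classical in
/-- The cohomology of a hyperkähler variety (in all degrees). -/
noncomputable def HK.coh (X : HK K) : Coh K where
  hodge n := if n ≤ X.d then Finset.univ.val.map (X.hs n) else 0
  newton v n := if h : n ≤ X.d ∧ Deg1 X.bad v then
    Finset.univ.val.map ((X.place v h.2).ns n) else 0

end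

/-- The cohomology theories over `T.K` which are built with the tools `T`, with exceptional residue
characteristics in the finite set `Y`:
* all cohomology groups of a hyperkähler variety `X` (any deformation type) whose `H²` is a direct
  summand of a sum of tensor products of pieces of the motives `T.A i` (`IsSummand`);
* cohomology groups which are such direct summands;
* the cohomology of varieties which are ordinary at all places of degree one outside `T.Z` and `Y`;
* products, direct sums, Tate twists and direct summands of these. -/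
inductive Built {F : Type} [Field F] [NumberField F] (T : Toolkit F) (Y : Finset ℕ) :
    Coh T.K → Prop
  | hk (X : HK T.K) (H : Multiset ℕ) : X.bad ⊆ Y → IsSummand T.A Y X.poly H →
      toQ H = Finset.univ.val.map (X.hs 2) → Built T Y X.coh
  | motive (V : Coh T.K) (P : ℕ → HeightOneSpectrum (𝓞 T.K) → ℤ[X]) (H : ℕ → Multiset ℕ) :
      (∀ n, IsSummand T.A Y (P n) (H n)) → (∀ n, V.hodge n = toQ (H n)) →
      (∀ n v, Deg1 Y v → Slopes (Ideal.absNorm v.asIdeal) (P n v) (V.newton v n)) → Built T Y V
  | known (V : Coh T.K) : (∀ v, Deg1 Y v → v ∉ T.Z → V.Ord v) → Built T Y V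
  | prod (V W : Coh T.K) : Built T Y V → Built T Y W → Built T Y (V.prod W)
  | sum (V W : Coh T.K) : Built T Y V → Built T Y W → Built T Y (V.sum W)
  | twist (V : Coh T.K) (k : ℕ) : Built T Y V → Built T Y (V.twist k)
  | summand (V C : Coh T.K) : V.Above Y → C.Above Y → Built T Y (V.sum C) → Built T Y V

/-! ## Intersection cohomology -/

/-- The intersection cohomology `IH^n(X)`, `n ≤ top`, of a projective variety `X` over `F`: for every
prime `ℓ` the `ℓ`-adic realisation `R n ℓ`, and the slopes `H n` of the Hodge-Tate polygon. They are a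
strictly compatible system (Gabber): at the places of degree one with residue characteristic outside
`bad` the characteristic polynomial of the geometric Frobenius element (the inverse of `γ`) is the
integral polynomial `P n v`, for all `ℓ`. -/
structure IHData (F : Type) [Field F] [NumberField F] where
  top : ℕ
  rank : ℕ → ℕ
  R : ∀ (n ℓ : ℕ) [Fact ℓ.Prime], GK F →* Matrix.GeneralLinearGroup (Fin (rank n)) ℚ_[ℓ]
  P : ℕ → HeightOneSpectrum (𝓞 F) → ℤ[X]
  H : ℕ → Multiset ℕ
  bad : Finset ℕ
  compat : ∀ (n ℓ : ℕ) [Fact ℓ.Prime] (v : HeightOneSpectrum (𝓞 F)), Deg1 bad v →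
    Ideal.absNorm v.asIdeal ≠ ℓ → ∀ γ : GK F, IsFrob v γ →
      (R n ℓ γ⁻¹ : Matrix (Fin (rank n)) (Fin (rank n)) ℚ_[ℓ]).charpoly =
        (P n v).map (Int.castRingHom ℚ_[ℓ])

/-- The place `v` is ordinary for all `IH^n(X)`: for all `n` and all primes `ℓ` different from the residue
characteristic `p = N v`, the characteristic polynomial of the geometric Frobenius element of `v` on
`IH^n(X, ℚ_ℓ)` is integral, and its Newton polygon at `p` is the Hodge-Tate polygon. -/
def IHData.OrdinaryAt {F : Type} [Field F] [NumberField F] (X : IHData F)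
    (v : HeightOneSpectrum (𝓞 F)) : Prop :=
  ∀ n ≤ X.top, ∀ (ℓ : ℕ) [Fact ℓ.Prime], Ideal.absNorm v.asIdeal ≠ ℓ → ∀ γ : GK F, IsFrob v γ →
    ∃ P : ℤ[X], (X.R n ℓ γ⁻¹ : Matrix (Fin (X.rank n)) (Fin (X.rank n)) ℚ_[ℓ]).charpoly =
        P.map (Int.castRingHom ℚ_[ℓ]) ∧ Slopes (Ideal.absNorm v.asIdeal) P (toQ (X.H n))

/-- Over the finite extension `K` of `F`, `IH^n(X)` is for every `n ≤ top` a direct summand of the
cohomology group `H^n(V)` (decomposition theorem); the complement has the Hodge slopes `H' n`, and the
Newton polygons of the summand and of the complement lie on or above the Hodge polygons, at the places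
of degree one with residue characteristic outside `Y`. -/
def IHData.SummandOf {F K : Type} [Field F] [NumberField F] [Field K] [NumberField K]
    [Algebra F K] (X : IHData F) (Y : Finset ℕ) (V : Coh K) : Prop :=
  ∃ H' : ℕ → Multiset ℚ, ∀ n ≤ X.top, toQ (X.H n) + H' n = V.hodge n ∧
    ∀ (v₀ : HeightOneSpectrum (𝓞 F)) (v : HeightOneSpectrum (𝓞 K)),
      v.asIdeal.comap (algebraMap (𝓞 F) (𝓞 K)) = v₀.asIdeal → Deg1 Y v →
      ∃ s s' : Multiset ℚ, Slopes (Ideal.absNorm v.asIdeal) (X.P n v₀) s ∧ s + s' = V.newton v n ∧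
        Above s (toQ (X.H n)) ∧ Above s' (H' n)

/-- `X` is potentially built with the tools `T`, with exceptional residue characteristics in `Y`. -/
def IHData.BuiltWith {F : Type} [Field F] [NumberField F] (X : IHData F) (T : Toolkit F)
    (Y : Finset ℕ) : Prop :=
  ∃ V : Coh T.K, Built T Y V ∧ X.SummandOf Y V

end Pool.Agent.V5helper91.IHO
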