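import Pool.Agent.V5helper91.IHO.Bridge

/-!
# The good places of a toolkit
-/

set_option autoImplicit false

namespace Pool.Agent.V5helper91.IHO

open NumberField IsDedekindDomain Polynomial Filter Topology
open Pool.Agent.W401.Cheb

section slopes

variable {p : ℕ}

lemma rpow_inj (hp : p.Prime) : Function.Injective fun a : ℚ => (1 / (p : ℝ)) ^ (a : ℝ) := by
  intro a b h
  have h0 : (0 : ℝ) < 1 / (p : ℝ) := by
    have : (0 : ℝ) < p := by exact_mod_cast hp.pos
    positivity
  have h1 : (1 / (p : ℝ)) < 1 := by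
    rw [div_lt_one (by exact_mod_cast hp.pos)]
    exact_mod_cast hp.one_lt
  have h2 : (a : ℝ) = (b : ℝ) := by
    rcases lt_trichotomy (a : ℝ) (b : ℝ) with h3 | h3 | h3
    · exact absurd h (Real.rpow_lt_rpow_of_exponent_gt h0 h1 h3).ne'
    · exact h3
    · exact absurd h (Real.rpow_lt_rpow_of_exponent_gt h0 h1 h3).ne
  exact_mod_cast h2

lemma slopes_of_newton {P : ℤ[X]} {H : Multiset ℕ} (h : Pool.Agent.W528.Ord.NewtonSlopes p P H) :
    Slopes p P (toQ H) := by
  obtain ⟨hp, h⟩ := h
  refine ⟨hp, ?_⟩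
  rw [h, toQ, Multiset.map_map]
  refine Multiset.map_congr rfl fun a _ => ?_
  simp

lemma slopes_unique {P : ℤ[X]} {s t : Multiset ℚ} (h : Slopes p P s) (h' : Slopes p P t) :
    s = t := by
  obtain ⟨hp, h⟩ := h
  obtain ⟨_, h'⟩ := h'
  have h1 := h.symm.trans h'
  exact Multiset.map_injective (rpow_inj hp.out) h1

end slopes

section hk

variable {K : Type} [Field K] [NumberField K]

/-- If exactly one root is a unit then the sum of the roots is a unit. -/
lemma norm_sum_one {L : Type*} [NormedField L] [IsUltrametricDist L] (R : Multiset L) (y : L)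
    (hy : ‖y‖ = 1) (hR : ∀ z ∈ R, ‖z‖ < 1) : ‖(y ::ₘ R).sum‖ = 1 := by
  rw [Multiset.sum_cons]
  have h1 : ‖R.sum‖ < 1 := by
    induction R using Multiset.induction_on with
    | empty => simp
    | cons a s ih =>
      rw [Multiset.sum_cons]
      refine lt_of_le_of_lt (IsUltrametricDist.norm_add_le_max _ _) (max_lt ?_ ?_)
      · exact hR a (Multiset.mem_cons_self a s)
      · exact ih fun z hz => hR z (Multiset.mem_cons_of_mem hz)
  have h2 : ‖R.sum‖ < ‖y‖ := by rw [hy]; exact h1
  rw [IsUltrametricDist.norm_add_eq_max_of_norm_ne_norm h2.ne', hy, max_eq_left h1.le]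

lemma split_map {α β : Type*} (f : α → β) (s : Multiset α) (b : β) (t : Multiset β)
    (h : s.map f = b ::ₘ t) : ∃ (a : α) (s' : Multiset α), s = a ::ₘ s' ∧ f a = b ∧ s'.map f = t := by
  classical
  have hb : b ∈ s.map f := by rw [h]; exact Multiset.mem_cons_self b t
  obtain ⟨a, ha, rfl⟩ := Multiset.mem_map.1 hb
  refine ⟨a, s.erase a, (Multiset.cons_erase ha).symm, rfl, ?_⟩
  rw [← Multiset.cons_erase ha, Multiset.map_cons] at h
  exact (Multiset.cons_inj_right _).1 h

variable (X : HK K) {v : HeightOneSpectrum (𝓞 K)} (hv : Deg1 X.bad v)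

open Pool.Agent.N184.HK in
/-- The trace of the Frobenius. -/
noncomputable def HK.t (v : HeightOneSpectrum (𝓞 K)) : ℤ := - (X.poly v).nextCoeff

lemma HK.trace_p :
    LinearMap.trace _ _ ((X.place v hv).F.φ 2).toLinearMap = ((X.t v : ℤ) : (X.place v hv).C) := by
  have h := X.poly_p v hv
  rw [GoodPlace.cp] at h
  rw [Pool.Agent.N184.HK.trace_coeff, h, nextCoeff_map (RingHom.injective_int _), HK.t]
  simp

include hv in
lemma HK.monic_poly : (X.poly v).Monic := by
  have h := LinearMap.charpoly_monic ((X.place v hv).F.φ 2).toLinearMap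
  have h1 := X.poly_p v hv
  rw [GoodPlace.cp] at h1
  rw [h1] at h
  exact monic_of_injective (RingHom.injective_int _) h

/-- If all slopes of `H²` are positive then `p` divides the trace. -/
lemma HK.dvd_t (hp : (Ideal.absNorm v.asIdeal).Prime) (h : ∀ j, 0 < (X.place v hv).ns 2 j) :
    (Ideal.absNorm v.asIdeal : ℤ) ∣ X.t v := by
  have h1 : 0 < (X.place v hv).val ((X.t v : ℤ) : (X.place v hv).C) := by
    rw [← X.trace_p hv, Pool.Agent.N184.HK.tr_roots, Multiset.map_id']
    have h2 := (X.place v hv).slopes 2 X.two_le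
    have h3 : ∀ e ∈ ((X.place v hv).F.φ 2).toLinearMap.charpoly.roots,
        0 < (X.place v hv).val e := by
      intro e he
      have h4 := Multiset.mem_map_of_mem (fun e => (X.place v hv).val e) he
      rw [h2] at h4
      obtain ⟨j, -, hj⟩ := Multiset.mem_map.1 h4
      rw [← hj]
      exact_mod_cast h j
    generalize ((X.place v hv).F.φ 2).toLinearMap.charpoly.roots = m at h3
    induction m using Multiset.induction_on with
    | empty => simp
    | cons a s ih =>
      rw [Multiset.sum_cons]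
      refine (lt_min (h3 a (Multiset.mem_cons_self a s))
        (ih fun z hz => h3 z (Multiset.mem_cons_of_mem hz))).trans_le
          ((X.place v hv).val.map_add _ _)
  by_contra hnd
  have hc : IsCoprime (Ideal.absNorm v.asIdeal : ℤ) (X.t v) :=
    (Nat.prime_iff_prime_int.1 hp).irreducible.coprime_iff_not_dvd.2 hnd
  obtain ⟨a, b, hab⟩ := hc
  have h5 : (X.place v hv).val (1 : (X.place v hv).C) = 0 := (X.place v hv).val.map_one
  have h6 : (1 : (X.place v hv).C) = (a : (X.place v hv).C) *
      (Ideal.absNorm v.asIdeal : (X.place v hv).C) +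
      (b : (X.place v hv).C) * ((X.t v : ℤ) : (X.place v hv).C) := by
    have := congrArg (fun z : ℤ => (z : (X.place v hv).C)) hab
    push_cast at this
    exact this.symm
  have h7 : 0 < (X.place v hv).val (1 : (X.place v hv).C) := by
    rw [h6]
    refine (lt_min ?_ ?_).trans_le ((X.place v hv).val.map_add _ _)
    · rw [(X.place v hv).val.map_mul, ← X.norm_eq v hv, (X.place v hv).norm]
      exact lt_of_lt_of_le zero_lt_one
        (le_add_of_nonneg_left (Pool.Agent.N184.HK.val_int (X.place v hv).val a))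
    · rw [(X.place v hv).val.map_mul]
      exact lt_of_lt_of_le h1
        (le_add_of_nonneg_left (Pool.Agent.N184.HK.val_int (X.place v hv).val b))
  rw [h5] at h7
  exact lt_irrefl _ h7

include hv in
lemma HK.three_le : 3 ≤ X.b 2 := by
  have := (X.place v hv).D.dim3
  have h2 := Pool.Agent.N184.HK.card_roots (X.place v hv).lib X.two_le
  change Module.finrank (X.place v hv).C ((X.place v hv).D.H 2) = X.b 2 at h2
  rwa [h2] at this

/-- If the Newton slopes of the Frobenius polynomial of `H²` are the Hodge slopes then the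
hyperkähler variety is ordinary in all degrees. -/
theorem HK.ordinary {H : Multiset ℕ}
    (hH : toQ H = Finset.univ.val.map (X.hs 2))
    (hN : Pool.Agent.W528.Ord.NewtonSlopes (Ideal.absNorm v.asIdeal) (X.poly v) H) {i : ℕ}
    (hi : i ≤ X.d) : (X.place v hv).ns i = X.hs i := by
  classical
  refine ordinary_all X.betti (X.place v hv) X.two_le ?_ hi
  by_contra hno
  have hp := hv.1
  have h3 := X.three_le hv
  have hpos := Pool.Agent.N184.HK.ordinary_of_zero h3 ((X.place v hv).mono 2)
    ((X.place v hv).above 2 X.two_le) (X.dual v hv) X.hodge hno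
  obtain ⟨k, hk⟩ := X.dvd_t hv hp hpos
  set p := Ideal.absNorm v.asIdeal with hpdef
  have : Fact p.Prime := ⟨hp⟩
  obtain ⟨_, hN⟩ := hN
  have hp0 : (0 : ℝ) < p := by exact_mod_cast hp.pos
  have hp1 : (1 / (p : ℝ)) < 1 := by
    rw [div_lt_one hp0]; exact_mod_cast hp.one_lt
  -- the slopes
  have hH0 : ∃ H', H = 0 ::ₘ H' ∧ ∀ a ∈ H', 1 ≤ a := by
    obtain ⟨b, hb⟩ : ∃ b, X.b 2 = b + 1 := ⟨X.b 2 - 1, by omega⟩
    have e1 : Finset.univ.val.map (X.hs 2) = 0 ::ₘ
        (Finset.univ.val.map fun j : Fin b => if (j : ℕ) + 2 = b + 1 then (2 : ℚ) else 1) := by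
      have e2 : Finset.univ.val.map (X.hs 2) =
          Finset.univ.val.map (fun j : Fin (b + 1) => X.hs 2 (Fin.cast hb.symm j)) := by
        have := Multiset.map_univ_val_equiv (finCongr hb.symm)
        rw [← this, Multiset.map_map]
        rfl
      rw [e2, Fin.univ_succ, Finset.cons_val, Multiset.map_cons, Finset.map_val, Multiset.map_map]
      congr 1
      · rw [X.hodge]; simp
      · refine Multiset.map_congr rfl fun j _ => ?_
        simp only [Function.comp]
        rw [X.hodge]
        simp only [Fin.val_cast, Function.Embedding.coeFn_mk, Fin.val_succ]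
        rw [if_neg (by omega)]
        have e3 : ((j : ℕ) + 1 + 1 = X.b 2) ↔ ((j : ℕ) + 2 = b + 1) := by omega
        simp only [e3]
    rw [e1] at hH
    obtain ⟨a, H', h1, h2, h4⟩ := split_map (fun a : ℕ => (a : ℚ)) H 0 _ hH
    refine ⟨H', ?_, fun x hx => ?_⟩
    · have : a = 0 := by exact_mod_cast h2
      rw [h1, this]
    · have h5 : (x : ℚ) ∈ H'.map (fun a : ℕ => (a : ℚ)) := Multiset.mem_map_of_mem _ hx
      rw [h4, Multiset.mem_map] at h5
      obtain ⟨j, -, hj⟩ := h5
      have h6 : (1 : ℚ) ≤ x := by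
        rw [← hj]; split_ifs <;> norm_num
      exact_mod_cast h6
  obtain ⟨H', rfl, hH'⟩ := hH0
  rw [Multiset.map_cons, pow_zero] at hN
  obtain ⟨y, R, h1, h2, h4⟩ := split_map (fun y : PadicAlgCl p => ‖y‖) _ _ _ hN
  have hR : ∀ z ∈ R, ‖z‖ < 1 := by
    intro z hz
    have h5 : ‖z‖ ∈ R.map (fun y : PadicAlgCl p => ‖y‖) := Multiset.mem_map_of_mem _ hz
    rw [h4, Multiset.mem_map] at h5
    obtain ⟨a, ha, h6⟩ := h5
    rw [← h6]
    exact pow_lt_one₀ (by positivity) hp1 (by have := hH' a ha; omega)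
  have hsum := norm_sum_one R y h2 hR
  -- the trace
  have hm : ((X.poly v).map (Int.castRingHom (PadicAlgCl p))).Monic := (X.monic_poly hv).map _
  have h5 := (IsAlgClosed.splits ((X.poly v).map
    (Int.castRingHom (PadicAlgCl p)))).nextCoeff_eq_neg_sum_roots_of_monic hm
  rw [nextCoeff_map (RingHom.injective_int _), h1] at h5
  have h6 : ((X.t v : ℤ) : PadicAlgCl p) = (y ::ₘ R).sum := by
    rw [HK.t]
    push_cast
    rw [← neg_eq_iff_eq_neg] at h5
    simpa using h5
  rw [← h6, hk] at hsum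
  push_cast at hsum
  rw [norm_mul, Pool.Agent.W528.Ord.norm_p] at hsum
  have h7 : ‖((k : ℤ) : PadicAlgCl p)‖ ≤ 1 := by
    have h8 : ((k : ℤ) : PadicAlgCl p) = algebraMap ℚ_[p] (PadicAlgCl p) ((k : ℤ) : ℚ_[p]) := by
      rw [map_intCast]
    rw [h8, norm_algebraMap']
    exact Padic.norm_int_le_one k
  have h9 : 1 / (p : ℝ) * ‖((k : ℤ) : PadicAlgCl p)‖ < 1 := by
    calc 1 / (p : ℝ) * ‖((k : ℤ) : PadicAlgCl p)‖ ≤ 1 / (p : ℝ) * 1 :=
          mul_le_mul_of_nonneg_left h7 (by positivity)
      _ < 1 := by rw [mul_one]; exact hp1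
  linarith

end hk

end Pool.Agent.V5helper91.IHO
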