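import Pool.Agent.V5helper91.IHO.Good

/-!
# Ordinary places of cohomology theories built with a toolkit
-/

set_option autoImplicit false

namespace Pool.Agent.V5helper91.IHO

open NumberField IsDedekindDomain Polynomial Filter Topology
open Pool.Agent.W401.Cheb
open Pool.Agent.W850.Ord (lower_good' dens_under' newton_of_good' diagonal lowerDensity_le_of_finite)
open Pool.Agent.W528.Ord (dens_mono dens_or under_norm finite_norm_mem)

variable {F : Type} [Field F] [NumberField F] (T : Toolkit F)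

/-- The motives of the library. -/
noncomputable def Toolkit.B (i : T.ι) : Pool.Agent.W528.Ord.MotSystem T.K T.ℓ := (T.A i).lib

theorem Toolkit.hB (i : T.ι) : (T.B i).IsMotive T.χ (T.S i) := (T.motive i).lib

/-- The good places of `K`. -/
def Toolkit.GoodPl (v : HeightOneSpectrum (𝓞 T.K)) : Prop :=
  Pool.Agent.W850.Ord.Good T.B T.S v ∧ v ∉ T.Z

/-- The places of `F` below the good places of `K`. -/
def Toolkit.Bel (v₀ : HeightOneSpectrum (𝓞 F)) : Prop :=
  ∃ v : HeightOneSpectrum (𝓞 T.K), v.asIdeal.comap (algebraMap (𝓞 F) (𝓞 T.K)) = v₀.asIdeal ∧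
    T.GoodPl v

theorem Toolkit.finrank_pos : (0 : ℝ) < (Module.finrank F T.K : ℝ) := by
  have : FiniteDimensional F T.K := Module.Finite.of_restrictScalars_finite ℚ F T.K
  exact_mod_cast Module.finrank_pos

theorem Toolkit.proportion_eq :
    T.proportion = Pool.Agent.W528.Ord.MotSystem.admProportion T.B /
      (Module.finrank F T.K : ℝ) := by
  rw [Toolkit.proportion, proportion_lib]
  rfl

theorem Toolkit.proportion_pos : 0 < T.proportion := by
  rw [T.proportion_eq]
  exact div_pos (Pool.Agent.W528.Ord.MotSystem.admProportion_pos T.B T.orbit) T.finrank_pos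

theorem Toolkit.lower : T.proportion ≤ lowerDensity T.Bel := by
  have : FiniteDimensional F T.K := Module.Finite.of_restrictScalars_finite ℚ F T.K
  have hd := T.finrank_pos
  apply Pool.Agent.W528.Ord.lowerDensity_ge
  intro ε hε
  have e0 := lower_good' T.B T.χ T.S T.hB (ε / 2 * (Module.finrank F T.K : ℝ)) (by positivity)
  have e1 := T.null.eventually
    (gt_mem_nhds (show (0:ℝ) < ε / 2 * (Module.finrank F T.K : ℝ) by positivity))
  filter_upwards [e0, e1] with N h0 h1
  have hle : dens (Pool.Agent.W850.Ord.Good T.B T.S) N ≤ dens T.GoodPl N +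
      dens (fun v : HeightOneSpectrum (𝓞 T.K) => v ∈ T.Z) N := by
    refine le_trans (dens_mono (Q := fun v => _ ∨ _) ?_ N) (dens_or _ _ N)
    intro v hv
    by_cases hz : v ∈ T.Z
    · exact Or.inr hz
    · exact Or.inl ⟨hv, hz⟩
  have h2 := dens_under' (K₀ := F) T.GoodPl T.Bel (fun v hv => hv.1.1)
    (fun v v₀ hv h0 => ⟨v, h0, hv⟩) N
  have h3 : Pool.Agent.W528.Ord.MotSystem.admProportion T.B - ε * (Module.finrank F T.K : ℝ) ≤
      dens T.Bel N * (Module.finrank F T.K : ℝ) := by linarith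
  rw [T.proportion_eq, div_sub' hd.ne', div_le_iff₀ hd, mul_comm (Module.finrank F T.K : ℝ) ε]
  exact h3

variable {T}

theorem newton_of_summand {Y : Finset ℕ} {P : HeightOneSpectrum (𝓞 T.K) → ℤ[X]} {H : Multiset ℕ}
    (h : IsSummand T.A Y P H) {v : HeightOneSpectrum (𝓞 T.K)} (hvY : Ideal.absNorm v.asIdeal ∉ Y)
    (hg : T.GoodPl v) :
    Pool.Agent.W528.Ord.NewtonSlopes (Ideal.absNorm v.asIdeal) (P v) H :=
  newton_of_good' (K₀ := T.K) T.B T.χ T.S T.hB h.lib v v (comap_self v) hg.1 hvY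

/-- Ordinarity at the good places: the induction over the constructions. -/
theorem Built.ord {Y : Finset ℕ} {V : Coh T.K} (hV : Built T Y V)
    (v : HeightOneSpectrum (𝓞 T.K)) (hvY : Ideal.absNorm v.asIdeal ∉ Y) (hg : T.GoodPl v) :
    V.Ord v := by
  classical
  induction hV with
  | hk X H hbad hsum hH =>
    intro n
    have hv : Deg1 X.bad v := ⟨hg.1.1, fun h => hvY (hbad h)⟩
    change (if h : n ≤ X.d ∧ Deg1 X.bad v then Finset.univ.val.map ((X.place v h.2).ns n) else 0) =
      (if n ≤ X.d then Finset.univ.val.map (X.hs n) else 0)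
    by_cases hn : n ≤ X.d
    · rw [dif_pos ⟨hn, hv⟩, if_pos hn, X.ordinary hv hH (newton_of_summand hsum hvY hg) hn]
    · rw [dif_neg (fun h => hn h.1), if_neg hn]
  | motive V P H hsum hV hP =>
    intro n
    rw [hV n]
    exact slopes_unique (hP n v ⟨hg.1.1, hvY⟩)
      (slopes_of_newton (newton_of_summand (hsum n) hvY hg))
  | known V h => exact h v ⟨hg.1.1, hvY⟩ hg.2
  | prod V W _ _ h1 h2 =>
    intro n
    have e1 : V.newton v = V.hodge := funext h1
    have e2 : W.newton v = W.hodge := funext h2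
    change kun (V.newton v) (W.newton v) n = kun V.hodge W.hodge n
    rw [e1, e2]
  | sum V W _ _ h1 h2 =>
    intro n
    change V.newton v n + W.newton v n = V.hodge n + W.hodge n
    rw [h1 n, h2 n]
  | twist V k _ h1 =>
    intro n
    change (if 2 * k ≤ n then (V.newton v (n - 2 * k)).map (fun x => x + (k : ℚ)) else 0) =
      (if 2 * k ≤ n then (V.hodge (n - 2 * k)).map (fun x => x + (k : ℚ)) else 0)
    rw [h1]
  | summand V C hV hC _ h1 =>
    intro n
    have e1 : V.newton v n + C.newton v n = V.hodge n + C.hodge n := h1 n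
    have e2 := congrArg (fun m : Multiset ℚ => (m.map (fun x => x ^ 2)).sum) e1
    simp only [Multiset.map_add, Multiset.sum_add] at e2
    have m1 := Pool.Agent.N397.HO.maj_multiset (hV v ⟨hg.1.1, hvY⟩ n)
    have m2 := Pool.Agent.N397.HO.maj_multiset (hC v ⟨hg.1.1, hvY⟩ n)
    exact m1.2 (by linarith [m2.1])

/-- The places of `F` below the good places of `K` are ordinary for `IH^n(X)`, all `n`, up to finitely
many residue characteristics. -/
theorem IHData.BuiltWith.ord {X : IHData F} {Y : Finset ℕ} (hX : X.BuiltWith T Y)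
    (v₀ : HeightOneSpectrum (𝓞 F)) (hvY : Ideal.absNorm v₀.asIdeal ∉ X.bad ∪ Y)
    (hB : T.Bel v₀) : X.OrdinaryAt v₀ := by
  classical
  obtain ⟨V, hV, H', hs⟩ := hX
  simp only [Finset.mem_union, not_or] at hvY
  obtain ⟨hb, hY⟩ := hvY
  obtain ⟨v, h0, hg⟩ := hB
  have e := under_norm v hg.1.1 v₀ h0
  have hp : (Ideal.absNorm v₀.asIdeal).Prime := e ▸ hg.1.1
  intro n hn ℓ' _ hne γ hγ
  refine ⟨X.P n v₀, X.compat n ℓ' v₀ ⟨hp, hb⟩ hne γ hγ, ?_⟩
  obtain ⟨hH, hn2⟩ := hs n hn
  obtain ⟨s, s', hsl, hadd, ha, ha'⟩ := hn2 v₀ v h0 ⟨hg.1.1, e ▸ hY⟩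
  have e1 : s + s' = toQ (X.H n) + H' n := by
    rw [hadd, hH]
    exact hV.ord v (e ▸ hY) hg n
  have e2 := congrArg (fun m : Multiset ℚ => (m.map (fun x => x ^ 2)).sum) e1
  simp only [Multiset.map_add, Multiset.sum_add] at e2
  have m1 := Pool.Agent.N397.HO.maj_multiset ha
  have m2 := Pool.Agent.N397.HO.maj_multiset ha'
  have e3 : s = toQ (X.H n) := m1.2 (by linarith [m2.1])
  rw [e3, ← e] at hsl
  exact hsl

/-- Finitely many varieties, one toolkit. -/
theorem part_one {κ : Type} [Finite κ] (X : κ → IHData F)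
    (hX : ∀ k, ∃ Y, (X k).BuiltWith T Y) :
    T.proportion ≤ lowerDensity fun v => ∀ k, (X k).OrdinaryAt v := by
  classical
  have := Fintype.ofFinite κ
  choose Y hY using hX
  refine T.lower.trans (lowerDensity_le_of_finite _ _
    (Finset.univ.biUnion fun k => (X k).bad ∪ Y k) ?_)
  intro v hv hvY k
  refine (hY k).ord v (fun h => hvY ?_) hv
  exact Finset.mem_biUnion.mpr ⟨k, Finset.mem_univ k, h⟩

/-- All varieties, a sequence of toolkits. -/
theorem part_two (T : ℕ → Toolkit F) (c : ℝ) (hc : ∀ j, c ≤ (T j).proportion) :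
    ∃ P : Set (HeightOneSpectrum (𝓞 F)), P.Infinite ∧ c ≤ lowerDensity (fun v => v ∈ P) ∧
      ∀ (X : IHData F) (Y : Finset ℕ), (∀ᶠ j in atTop, X.BuiltWith (T j) Y) →
        {v ∈ P | ¬ X.OrdinaryAt v}.Finite := by
  classical
  obtain ⟨P, hinf, hdens, hfin⟩ := diagonal (fun j => (T j).Bel)
    (fun j => lt_of_lt_of_le (T j).proportion_pos (T j).lower) c (fun j => (hc j).trans (T j).lower)
  refine ⟨P, hinf, hdens, fun X Y hX => ?_⟩
  obtain ⟨n₀, hn₀⟩ := eventually_atTop.mp hX
  refine ((hfin n₀).union (finite_norm_mem (K := F) (X.bad ∪ Y))).subset ?_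
  rintro v ⟨hv, hno⟩
  by_contra hcon
  rw [Set.mem_union, not_or] at hcon
  obtain ⟨h1, h2⟩ := hcon
  obtain ⟨n, hn, hb⟩ : ∃ n, n₀ ≤ n ∧ (T n).Bel v := by
    by_contra h3
    push Not at h3
    exact h1 ⟨hv, h3⟩
  exact hno ((hn₀ n hn).ord v h2 hb)

end Pool.Agent.V5helper91.IHO
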